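import Pool.Agent.H70.CP.Mono

/-!
# The potential is at most a convex combination of `ZZ 0` and `ZZ 1`
-/

set_option autoImplicit false

namespace Pool.Agent.H70.CP

open Finset

theorem ZZ_nonneg {q : ℝ} (hq : 0 ≤ q) (K b n : ℕ) : ∀ a : ℕ → ℕ, 0 ≤ ZZ q K b n a := by
  classical
  induction n with
  | zero => intro a; simp [ZZ]
  | succ n ih =>
    intro a
    unfold ZZ
    refine mul_nonneg ?_ (div_nonneg (sum_nonneg fun τ _ => ih _) (Nat.cast_nonneg K))
    split_ifs
    · exact hq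
    · norm_num

/-- the correction factor -/
noncomputable def Cf (c : ℝ) (K : ℕ) (a : ℕ → ℕ) : ℝ :=
  Real.exp (c / (2 * K) * ((2 - a 2 : ℕ) : ℝ))

theorem Cf_pos (c : ℝ) (K : ℕ) (a : ℕ → ℕ) : 0 < Cf c K a := Real.exp_pos _

theorem one_le_Cf {c : ℝ} (hc : 0 ≤ c) (K : ℕ) (a : ℕ → ℕ) : 1 ≤ Cf c K a := by
  unfold Cf
  rw [Real.one_le_exp_iff]
  positivity

theorem Cf_upd_le {c : ℝ} (hc : 0 ≤ c) (K : ℕ) (a : ℕ → ℕ) (τ : ℕ) :
    Cf c K (upd a τ) ≤ Cf c K a := by
  unfold Cf upd
  rw [Real.exp_le_exp]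
  refine mul_le_mul_of_nonneg_left ?_ (by positivity)
  rw [Nat.cast_le]
  omega

open Classical in
/-- the pointwise inequality -/
theorem ww_Cf {c : ℝ} {K : ℕ} (hc : 1 ≤ c) (hK : 2 ≤ K) (a : ℕ → ℕ) (τ : Fin K) :
    Real.exp (((if ok K a 0 then 1 else 0) + (c - 1) * (if ok K a 1 then 1 else 0)) / (2 * K)) *
      (ww c K a τ * Cf c K (upd a τ)) ≤ Cf c K a := by
  have hKr : (2 : ℝ) ≤ K := by exact_mod_cast hK
  have hgen : ∀ g : ℝ, Real.exp g * ((1 - g) * Cf c K (upd a τ)) ≤ Cf c K a := by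
    intro g
    have h1 : (1 - g) ≤ Real.exp (-g) := by
      have := Real.add_one_le_exp (-g)
      linarith
    have h2 := Cf_upd_le (by linarith : (0 : ℝ) ≤ c) K a (τ : ℕ)
    have h3 := Cf_pos c K (upd a (τ : ℕ))
    calc Real.exp g * ((1 - g) * Cf c K (upd a τ))
        ≤ Real.exp g * (Real.exp (-g) * Cf c K (upd a τ)) := by
          refine mul_le_mul_of_nonneg_left ?_ (Real.exp_pos g).le
          exact mul_le_mul_of_nonneg_right h1 h3.le
      _ = Cf c K (upd a τ) := by
          rw [← mul_assoc, ← Real.exp_add, add_neg_cancel, Real.exp_zero, one_mul]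
      _ ≤ _ := h2
  by_cases h0 : ok K a 0
  · have h1 : ok K a 1 := ok_le (Nat.zero_le _) h0
    have h2 : ok K a τ := ok_le (Nat.zero_le _) h0
    unfold ww gg
    rw [if_pos h0, if_pos h1, if_pos h2, if_pos h0]
    have e : (1 + (c - 1) * 1) / (2 * (K : ℝ)) = c / (2 * K) := by ring
    rw [e]
    exact hgen _
  · by_cases h1 : ok K a 1
    · by_cases h2 : ok K a τ
      · unfold ww gg
        rw [if_neg h0, if_pos h1, if_pos h2, if_neg h0, if_pos h1]
        have e : (0 + (c - 1) * 1) / (2 * (K : ℝ)) = (c - 1) / (2 * K) := by ring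
        rw [e]
        exact hgen _
      · have h3 : (τ : ℕ) = 0 := by
          by_contra h4
          exact h2 (ok_le (by omega) h1)
        have h4 : a 2 < 2 := h1 2 (by norm_num) hK
        unfold ww
        rw [if_neg h0, if_pos h1, if_neg h2, one_mul, h3]
        unfold Cf upd
        rw [← Real.exp_add, Real.exp_le_exp, if_pos (by norm_num : (0 : ℕ) < 2)]
        have h5 : ((2 - a 2 : ℕ) : ℝ) = ((2 - (a 2 + 1) : ℕ) : ℝ) + 1 := by
          rw [← Nat.cast_one (R := ℝ), ← Nat.cast_add]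
          congr 1
          omega
        rw [h5]
        have h6 : (0 + (c - 1) * 1) / (2 * (K : ℝ)) ≤ c / (2 * K) :=
          div_le_div_of_nonneg_right (by linarith) (by linarith)
        linarith
    · have h2 : gg c K a = 0 := by
        unfold gg
        rw [if_neg h0, if_neg h1]
      have h3 : ww c K a τ = 1 := by
        unfold ww
        rw [h2]
        split_ifs <;> norm_num
      rw [if_neg h0, if_neg h1, h3]
      simp only [mul_zero, add_zero, zero_div, Real.exp_zero, one_mul]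
      exact Cf_upd_le (by linarith) K a _

open Classical in
theorem VV_le {c q : ℝ} {K : ℕ} (hc : 1 ≤ c) (hK : 2 ≤ K) (hcK : c ≤ 2 * K)
    (hq : q = Real.exp (-(c / (2 * K)))) (n : ℕ) :
    ∀ (a : ℕ → ℕ) (α₁ α₂ : ℝ), Real.exp (-(α₁ + (c - 1) * α₂)) * VV c K n a ≤
      Cf c K a * (1 / c * (Real.exp (-(c * α₁)) * ZZ q K 0 n a) +
        (c - 1) / c * (Real.exp (-(c * α₂)) * ZZ q K 1 n a)) := by
  have hc0 : 0 < c := by linarith
  have hKr : (2 : ℝ) ≤ K := by exact_mod_cast hK
  have hq0 : 0 ≤ q := hq ▸ (Real.exp_pos _).le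
  induction n with
  | zero =>
    intro a α₁ α₂
    have h1 := convexOn_exp.2 (Set.mem_univ (-(c * α₁))) (Set.mem_univ (-(c * α₂)))
      (show (0 : ℝ) ≤ 1 / c by positivity)
      (show (0 : ℝ) ≤ (c - 1) / c from div_nonneg (by linarith) hc0.le)
      (show 1 / c + (c - 1) / c = 1 by field_simp; ring)
    simp only [smul_eq_mul] at h1
    have e : 1 / c * -(c * α₁) + (c - 1) / c * -(c * α₂) = -(α₁ + (c - 1) * α₂) := by
      field_simp
      ring
    rw [e] at h1
    simp only [VV, ZZ, mul_one]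
    have h2 := one_le_Cf hc0.le K a
    have h3 : 0 ≤ 1 / c * Real.exp (-(c * α₁)) + (c - 1) / c * Real.exp (-(c * α₂)) :=
      h1.trans' (Real.exp_pos _).le
    nlinarith
  | succ n ih =>
    intro a α₁ α₂
    obtain ⟨o₀, ho₀⟩ : ∃ o₀ : ℝ, o₀ = if ok K a 0 then 1 else 0 := ⟨_, rfl⟩
    obtain ⟨o₁, ho₁⟩ : ∃ o₁ : ℝ, o₁ = if ok K a 1 then 1 else 0 := ⟨_, rfl⟩
    have hq' : ∀ (b : ℕ) (o α : ℝ), o = (if ok K a b then 1 else 0) →
        Real.exp (-(c * (α + o / (2 * K)))) =
          Real.exp (-(c * α)) * (if ok K a b then q else 1) := by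
      intro b o α ho
      split_ifs at ho ⊢ with h
      · rw [hq, ← Real.exp_add, ho]
        congr 1
        ring
      · rw [ho]
        simp
    have hstep : ∀ τ : Fin K, Real.exp (-(α₁ + (c - 1) * α₂)) *
        (ww c K a τ * VV c K n (upd a τ)) ≤
        Cf c K a * (1 / c * (Real.exp (-(c * α₁)) * ((if ok K a 0 then q else 1) *
          ZZ q K 0 n (upd a τ))) + (c - 1) / c * (Real.exp (-(c * α₂)) *
          ((if ok K a 1 then q else 1) * ZZ q K 1 n (upd a τ)))) := by
      intro τ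
      have h1 := ih (upd a τ) (α₁ + o₀ / (2 * K)) (α₂ + o₁ / (2 * K))
      rw [hq' 0 o₀ α₁ ho₀, hq' 1 o₁ α₂ ho₁] at h1
      have h2 := ww_Cf hc hK a τ
      rw [← ho₀, ← ho₁] at h2
      obtain ⟨Y, hY⟩ : ∃ Y, Y = 1 / c * (Real.exp (-(c * α₁)) * (if ok K a 0 then q else 1) *
          ZZ q K 0 n (upd a τ)) + (c - 1) / c * (Real.exp (-(c * α₂)) *
          (if ok K a 1 then q else 1) * ZZ q K 1 n (upd a τ)) := ⟨_, rfl⟩
      have hY0 : 0 ≤ Y := by
        have hz0 := ZZ_nonneg hq0 K 0 n (upd a τ)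
        have hz1 := ZZ_nonneg hq0 K 1 n (upd a τ)
        have hi : ∀ b : ℕ, (0 : ℝ) ≤ if ok K a b then q else 1 := by
          intro b
          split_ifs
          · exact hq0
          · norm_num
        rw [hY]
        refine add_nonneg (mul_nonneg (by positivity) ?_)
          (mul_nonneg (div_nonneg (by linarith) hc0.le) ?_)
        · exact mul_nonneg (mul_nonneg (Real.exp_pos _).le (hi 0)) hz0
        · exact mul_nonneg (mul_nonneg (Real.exp_pos _).le (hi 1)) hz1
      rw [← hY] at h1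
      have e1 : Real.exp (-(α₁ + (c - 1) * α₂)) =
          Real.exp ((o₀ + (c - 1) * o₁) / (2 * K)) *
            Real.exp (-(α₁ + o₀ / (2 * K) + (c - 1) * (α₂ + o₁ / (2 * K)))) := by
        rw [← Real.exp_add]
        congr 1
        ring
      calc Real.exp (-(α₁ + (c - 1) * α₂)) * (ww c K a τ * VV c K n (upd a τ))
          = Real.exp ((o₀ + (c - 1) * o₁) / (2 * K)) * ww c K a τ *
            (Real.exp (-(α₁ + o₀ / (2 * K) + (c - 1) * (α₂ + o₁ / (2 * K)))) *
              VV c K n (upd a τ)) := by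
            rw [e1]
            ring
        _ ≤ Real.exp ((o₀ + (c - 1) * o₁) / (2 * K)) * ww c K a τ *
            (Cf c K (upd a τ) * Y) := by
            refine mul_le_mul_of_nonneg_left h1 (mul_nonneg (Real.exp_pos _).le ?_)
            exact ww_nonneg hc hcK a τ
        _ = (Real.exp ((o₀ + (c - 1) * o₁) / (2 * K)) *
              (ww c K a τ * Cf c K (upd a τ))) * Y := by ring
        _ ≤ Cf c K a * Y := mul_le_mul_of_nonneg_right h2 hY0
        _ = _ := by
            rw [hY]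
            ring
    have hK0 : (0 : ℝ) < K := by linarith
    have h3 := sum_le_sum fun (τ : Fin K) (_ : τ ∈ univ) => hstep τ
    have h4 := div_le_div_of_nonneg_right h3 hK0.le
    refine le_trans (le_of_eq ?_) (h4.trans (le_of_eq ?_))
    · rw [VV, ← mul_sum]
      ring
    · rw [← mul_sum, sum_add_distrib, ← mul_sum, ← mul_sum, ← mul_sum, ← mul_sum, ← mul_sum,
        ← mul_sum, ZZ, ZZ]
      ring

theorem VV_zero_le {c q : ℝ} {K : ℕ} (hc : 1 ≤ c) (hK : 2 ≤ K) (hcK : c ≤ 2 * K)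
    (hq : q = Real.exp (-(c / (2 * K)))) (n : ℕ) :
    VV c K n (fun _ => 0) ≤ Real.exp (c / K) * (1 / c * ZZ q K 0 n (fun _ => 0) +
      (c - 1) / c * ZZ q K 1 n (fun _ => 0)) := by
  have h1 := VV_le hc hK hcK hq n (fun _ => 0) 0 0
  have hKr : (2 : ℝ) ≤ K := by exact_mod_cast hK
  have e : Cf c K (fun _ => 0) = Real.exp (c / K) := by
    unfold Cf
    congr 1
    push_cast
    field_simp
  rw [e] at h1
  simpa using h1

end Pool.Agent.H70.CP
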