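import Pool.Agent.H70.CP.Defs

/-!
# The walks of the coupled process
-/

set_option autoImplicit false

namespace Pool.Agent.H70.CP

open Finset Pool.Agent.H81.RD Pool.Agent.H81.RE

variable {V : Type} [DecidableEq V]

open Classical in
theorem used_total {K : ℕ} (n : ℕ) : ∀ (a : ℕ → ℕ) (ω : Fin n → Fin K × Bool) (T : ℕ), T ≤ K →
    used K true n a ω T + used K false n a ω T ≤ T - a T := by
  induction n with
  | zero => intro a ω T _; simp [used]
  | succ n ih =>
    intro a ω T hT
    have h1 := ih (upd a (ω 0).1) (fun i => ω i.succ) T hT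
    unfold used
    unfold upd at h1 ⊢
    by_cases h2 : ok K a (ω 0).1 ∧ ((ω 0).1 : ℕ) < T
    · have h3 := h2.1 T h2.2 hT
      rw [if_pos h2.2] at h1
      have h4 : (if (ω 0).2 = true ∧ ok K a (ω 0).1 ∧ ((ω 0).1 : ℕ) < T then 1 else 0) +
          (if (ω 0).2 = false ∧ ok K a (ω 0).1 ∧ ((ω 0).1 : ℕ) < T then 1 else 0) ≤ 1 := by
        by_cases hb : (ω 0).2 = true
        · have h5 : ¬ ((ω 0).2 = false ∧ ok K a (ω 0).1 ∧ ((ω 0).1 : ℕ) < T) := by
            rintro ⟨h6, _⟩
            rw [hb] at h6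
            exact absurd h6 (by decide)
          rw [if_neg h5]
          split_ifs <;> omega
        · have h5 : ¬ ((ω 0).2 = true ∧ ok K a (ω 0).1 ∧ ((ω 0).1 : ℕ) < T) := fun h6 => hb h6.1
          rw [if_neg h5]
          split_ifs <;> omega
      omega
    · have h4 : (if (ω 0).2 = true ∧ ok K a (ω 0).1 ∧ ((ω 0).1 : ℕ) < T then 1 else 0) = 0 :=
        if_neg fun h => h2 h.2
      have h5 : (if (ω 0).2 = false ∧ ok K a (ω 0).1 ∧ ((ω 0).1 : ℕ) < T then 1 else 0) = 0 :=
        if_neg fun h => h2 h.2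
      have h6 : T - (a T + if ((ω 0).1 : ℕ) < T then 1 else 0) ≤ T - a T := by omega
      omega

open Classical in
theorem used_large {K : ℕ} (side : Bool) (n : ℕ) : ∀ (a : ℕ → ℕ) (ω : Fin n → Fin K × Bool)
    (T : ℕ), K ≤ T → used K side n a ω T = used K side n a ω K := by
  induction n with
  | zero => intro a ω T _; simp [used]
  | succ n ih =>
    intro a ω T hT
    unfold used
    rw [ih _ _ T hT]
    have h1 := (ω 0).1.isLt
    have h2 : ((ω 0).1 : ℕ) < T := by omega
    congr 1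
    by_cases h3 : (ω 0).2 = side ∧ ok K a (ω 0).1
    · rw [if_pos ⟨h3.1, h3.2, h2⟩, if_pos ⟨h3.1, h3.2, h1⟩]
    · rw [if_neg (fun h => h3 ⟨h.1, h.2.1⟩), if_neg (fun h => h3 ⟨h.1, h.2.1⟩)]

theorem used_le {K : ℕ} (n : ℕ) (ω : Fin n → Fin K × Bool) (T : ℕ) :
    used K true n (fun _ => 0) ω T + used K false n (fun _ => 0) ω T ≤ T := by
  rcases Nat.lt_or_ge K T with h | h
  · rw [used_large true n _ ω T h.le, used_large false n _ ω T h.le]
    have := used_total n (fun _ => 0) ω K le_rfl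
    omega
  · have := used_total n (fun _ => 0) ω T h
    omega

open Classical in
theorem run_subset {s : V → V → ℕ} {B : Finset V} {f : Finset V → V} {K : ℕ} (side : Bool)
    (n : ℕ) : ∀ (R : Finset V), R ⊆ B → ∀ (a : ℕ → ℕ) (ω : Fin n → Fin K × Bool),
      run s B f K side n R a ω ⊆ B := by
  induction n with
  | zero => intro R hR a ω; exact hR
  | succ n ih =>
    intro R hR a ω
    unfold run
    refine ih _ ?_ _ _
    split_ifs
    · exact stp_subset hR _
    · exact hR

open Classical in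
theorem run_reach {s : V → V → ℕ} {B : Finset V} {f : Finset V → V} {K : ℕ}
    (hf : ∀ R : Finset V, R.Nonempty → R ⊆ B → f R ∈ R) (side : Bool) (n : ℕ) :
    ∀ (R : Finset V), R.Nonempty → R ⊆ B → ∀ (a : ℕ → ℕ) (ω : Fin n → Fin K × Bool),
      ∀ y ∈ run s B f K side n R a ω,
      ∃ r ∈ R, ∃ (N : ℕ → ℕ) (M : ℕ), W s r N M y ∧ ∀ T : ℕ, N T ≤ used K side n a ω T := by
  induction n with
  | zero =>
    intro R _ _ a ω y hy
    exact ⟨y, hy, _, 0, W.refl, fun T => Nat.zero_le _⟩
  | succ n ih =>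
    intro R hR hRB a ω y hy
    unfold run at hy
    unfold used
    by_cases h0 : (ω 0).2 = side ∧ ok K a (ω 0).1
    · rw [if_pos h0] at hy
      obtain ⟨r, hr, N, M, hW, hN⟩ := ih _ (stp_nonempty hR _) (stp_subset hRB _) _ _ y hy
      unfold stp at hr
      rw [mem_union] at hr
      rcases hr with hr | hr
      · exact ⟨r, hr, N, M, hW, fun T => (hN T).trans (Nat.le_add_left _ _)⟩
      · rw [mem_filter] at hr
        refine ⟨f R, hf R hR hRB, _, _,
          (W.step W.refl (lt_of_le_of_lt (Nat.zero_le _) hr.2)).trans hW, fun T => ?_⟩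
        have h1 := hN T
        have h2 : (if s (f R) r ≤ T then 1 else 0) ≤
            if (ω 0).2 = side ∧ ok K a (ω 0).1 ∧ ((ω 0).1 : ℕ) < T then 1 else 0 := by
          by_cases h3 : s (f R) r ≤ T
          · rw [if_pos h3, if_pos ⟨h0.1, h0.2, lt_of_lt_of_le hr.2 h3⟩]
          · rw [if_neg h3]
            exact Nat.zero_le _
        omega
    · rw [if_neg h0] at hy
      obtain ⟨r, hr, N, M, hW, hN⟩ := ih _ hR hRB _ _ y hy
      exact ⟨r, hr, N, M, hW, fun T => (hN T).trans (Nat.le_add_left _ _)⟩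

end Pool.Agent.H70.CP
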