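import Pool.Agent.H70.CP.Mono
import Pool.Agent.H70.CP.Reach

/-!
# The growth of the coupled process

With `M τ = |B \ stp R τ|` (monotone in `τ`, `∑ M τ ≤ (K - c) |B \ R|`) and the antitone
`v τ = VV n (upd a τ)`, Chebyshev's inequality gives one step.
-/

set_option autoImplicit false

namespace Pool.Agent.H70.CP

open Finset Pool.Agent.H81.RD Pool.Agent.H81.RE

open Classical in
/-- one step, abstract -/
theorem one_step {K : ℕ} {c D : ℝ} {a : ℕ → ℕ} {v M : Fin K → ℝ} (hc : 2 ≤ c) (hcK : c ≤ K)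
    (hv : Antitone v) (hv0 : ∀ τ, 0 ≤ v τ) (hM : Monotone M) (hM0 : ∀ τ, 0 ≤ M τ)
    (hMD : ∀ τ, M τ ≤ D) (hD : 0 ≤ D) (hsum : ∑ τ, M τ ≤ (K - c) * D) :
    ∑ τ : Fin K, v τ * (D + if ok K a τ then M τ else D) ≤
      2 * D * ∑ τ : Fin K, ww c K a τ * v τ := by
  have hK : (0 : ℝ) < K := by linarith
  have hanti : Antivary v M := hv.antivary hM
  by_cases h0 : ok K a 0
  · have hok : ∀ τ : Fin K, ok K a τ := fun τ => ok_le (Nat.zero_le _) h0
    have hg : gg c K a = c / (2 * K) := by
      unfold gg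
      rw [if_pos h0]
    have e1 : ∀ τ : Fin K, v τ * (D + if ok K a τ then M τ else D) = D * v τ + v τ * M τ := by
      intro τ
      rw [if_pos (hok τ)]
      ring
    have e2 : ∀ τ : Fin K, ww c K a τ * v τ = (1 - c / (2 * K)) * v τ := by
      intro τ
      unfold ww
      rw [if_pos (hok τ), hg]
    rw [sum_congr rfl fun τ _ => e1 τ, sum_congr rfl fun τ _ => e2 τ, sum_add_distrib, ← mul_sum,
      ← mul_sum]
    have h1 := hanti.card_mul_sum_le_sum_mul_sum
    rw [Fintype.card_fin] at h1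
    obtain ⟨Sv, hSv⟩ : ∃ Sv, Sv = ∑ τ, v τ := ⟨_, rfl⟩
    obtain ⟨Sm, hSm⟩ : ∃ Sm, Sm = ∑ τ, v τ * M τ := ⟨_, rfl⟩
    rw [← hSv] at h1 ⊢
    rw [← hSm] at h1 ⊢
    have hSv0 : 0 ≤ Sv := hSv ▸ sum_nonneg fun τ _ => hv0 τ
    have h2 : (K : ℝ) * Sm ≤ Sv * ((K - c) * D) :=
      h1.trans (mul_le_mul_of_nonneg_left hsum hSv0)
    have h3 : Sm ≤ Sv * ((K - c) * D) / K := by
      rw [le_div_iff₀ hK]
      linarith
    have e3 : 2 * D * ((1 - c / (2 * K)) * Sv) = D * Sv + Sv * ((K - c) * D) / K := by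
      field_simp
      ring
    rw [e3]
    linarith
  · by_cases h1 : ok K a 1
    · have hg : gg c K a = (c - 1) / (2 * K) := by
        unfold gg
        rw [if_neg h0, if_pos h1]
      have hok : ∀ τ : Fin K, ok K a τ ↔ 1 ≤ (τ : ℕ) := by
        intro τ
        constructor
        · intro h
          by_contra h2
          have h3 : (τ : ℕ) = 0 := by omega
          rw [h3] at h
          exact h0 h
        · intro h
          exact ok_le h h1
      obtain ⟨S, hS⟩ : ∃ S : Finset (Fin K), S = univ.filter fun τ : Fin K => 1 ≤ (τ : ℕ) :=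
        ⟨_, rfl⟩
      have hScard : (S.card : ℝ) = K - 1 := by
        rw [hS, card_le_val (K := K) (m := 1) (by
          have : (1 : ℝ) ≤ K := by linarith
          exact_mod_cast this)]
        rw [Nat.cast_sub (by
          have : (1 : ℝ) ≤ K := by linarith
          exact_mod_cast this)]
        simp
      have e1 : ∑ τ : Fin K, v τ * (D + if ok K a τ then M τ else D) =
          D * ∑ τ : Fin K, v τ + ∑ τ : Fin K, (if 1 ≤ (τ : ℕ) then v τ * M τ else v τ * D) := by
        rw [mul_sum, ← sum_add_distrib]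
        refine sum_congr rfl fun τ _ => ?_
        by_cases h : 1 ≤ (τ : ℕ)
        · rw [if_pos ((hok τ).mpr h), if_pos h]
          ring
        · rw [if_neg (fun h2 => h ((hok τ).mp h2)), if_neg h]
          ring
      have e2 : ∑ τ : Fin K, ww c K a τ * v τ =
          ∑ τ : Fin K, v τ - (c - 1) / (2 * K) * ∑ τ : Fin K, (if 1 ≤ (τ : ℕ) then v τ else 0) := by
        rw [mul_sum, ← sum_sub_distrib]
        refine sum_congr rfl fun τ _ => ?_
        unfold ww
        by_cases h : 1 ≤ (τ : ℕ)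
        · rw [if_pos ((hok τ).mpr h), if_pos h, hg]
          ring
        · rw [if_neg (fun h2 => h ((hok τ).mp h2)), if_neg h]
          ring
      have e3 : ∑ τ : Fin K, (if 1 ≤ (τ : ℕ) then v τ * M τ else v τ * D) =
          ∑ τ ∈ S, v τ * M τ + D * (∑ τ : Fin K, v τ - ∑ τ ∈ S, v τ) := by
        rw [hS, sum_filter, sum_filter, ← sum_sub_distrib, mul_sum, ← sum_add_distrib]
        refine sum_congr rfl fun τ _ => ?_
        split_ifs <;> ring
      have e4 : ∑ τ : Fin K, (if 1 ≤ (τ : ℕ) then v τ else 0) = ∑ τ ∈ S, v τ := by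
        rw [hS, sum_filter]
      rw [e1, e2, e3, e4]
      have h2 := (hanti.antivaryOn (S : Set (Fin K))).card_mul_sum_le_sum_mul_sum
      rw [hScard] at h2
      obtain ⟨Sv, hSv⟩ : ∃ Sv, Sv = ∑ τ ∈ S, v τ := ⟨_, rfl⟩
      obtain ⟨Sm, hSm⟩ : ∃ Sm, Sm = ∑ τ ∈ S, v τ * M τ := ⟨_, rfl⟩
      obtain ⟨Tv, hTv⟩ : ∃ Tv, Tv = ∑ τ, v τ := ⟨_, rfl⟩
      have hMS : ∑ τ ∈ S, M τ ≤ (K - c) * D :=
        (sum_le_sum_of_subset_of_nonneg (subset_univ S) fun τ _ _ => hM0 τ).trans hsum
      rw [← hSv] at h2 ⊢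
      rw [← hSm] at h2 ⊢
      rw [← hTv]
      have hSv0 : 0 ≤ Sv := hSv ▸ sum_nonneg fun τ _ => hv0 τ
      have h3 : ((K : ℝ) - 1) * Sm ≤ Sv * ((K - c) * D) :=
        h2.trans (mul_le_mul_of_nonneg_left hMS hSv0)
      have hK1 : (0 : ℝ) < (K : ℝ) - 1 := by linarith
      have h4 : Sm ≤ Sv * ((K - c) * D) / ((K : ℝ) - 1) := by
        rw [le_div_iff₀ hK1]
        linarith
      have h5 : Sv * ((K - c) * D) / ((K : ℝ) - 1) ≤ Sv * D * ((K - c + 1) / K) := by
        have h6 : ((K : ℝ) - c) / ((K : ℝ) - 1) ≤ (K - c + 1) / K := by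
          rw [div_le_div_iff₀ hK1 hK]
          nlinarith
        calc Sv * ((K - c) * D) / ((K : ℝ) - 1) = Sv * D * (((K : ℝ) - c) / ((K : ℝ) - 1)) := by
              ring
          _ ≤ _ := mul_le_mul_of_nonneg_left h6 (mul_nonneg hSv0 hD)
      have e5 : 2 * D * (Tv - (c - 1) / (2 * K) * Sv) =
          D * Tv + (Sv * D * ((K - c + 1) / K) + D * (Tv - Sv)) := by
        field_simp
        ring
      rw [e5]
      linarith
    · have hg : gg c K a = 0 := by
        unfold gg
        rw [if_neg h0, if_neg h1]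
      have hw : ∀ τ : Fin K, ww c K a τ = 1 := by
        intro τ
        unfold ww
        rw [hg]
        split_ifs <;> norm_num
      rw [mul_sum]
      refine sum_le_sum fun τ _ => ?_
      rw [hw, one_mul, mul_comm (2 * D)]
      refine mul_le_mul_of_nonneg_left ?_ (hv0 τ)
      split_ifs
      · linarith [hMD τ]
      · linarith

variable {V : Type} [DecidableEq V]

open Classical in
/-- the average decrease -/
theorem sum_run {s : V → V → ℕ} {B : Finset V} {f : Finset V → V} {K : ℕ} {c : ℝ}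
    (hc : 2 ≤ c) (hcK : c ≤ K) (hf : ∀ R : Finset V, R.Nonempty → R ⊆ B → f R ∈ R)
    (hK : ∀ R : Finset V, R.Nonempty → R ⊆ B → ∀ y ∈ B, s (f R) y ≤ K)
    (hex : ∀ R : Finset V, R.Nonempty → R ⊆ B →
      c * ((B \ R).card : ℝ) ≤ ∑ y ∈ B \ R, (s (f R) y : ℝ)) (side : Bool) (n : ℕ) :
    ∀ R : Finset V, R.Nonempty → R ⊆ B → ∀ a : ℕ → ℕ,
      ∑ ω : Fin n → Fin K × Bool, ((B \ run s B f K side n R a ω).card : ℝ) ≤
        (2 * K) ^ n * VV c K n a * ((B \ R).card : ℝ) := by
  have hK0 : (0 : ℝ) < K := by linarith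
  induction n with
  | zero =>
    intro R _ _ a
    simp [run, VV]
  | succ n ih =>
    intro R hR hRB a
    obtain ⟨D, hD⟩ : ∃ D : ℝ, D = ((B \ R).card : ℝ) := ⟨_, rfl⟩
    obtain ⟨M, hM⟩ : ∃ M : Fin K → ℝ, M = fun τ : Fin K => ((B \ stp s B f R τ).card : ℝ) := ⟨_, rfl⟩
    obtain ⟨v, hv⟩ : ∃ v : Fin K → ℝ, v = fun τ : Fin K => VV c K n (upd a τ) := ⟨_, rfl⟩
    have hc1 : (1 : ℝ) ≤ c := by linarith
    have hcK2 : c ≤ 2 * K := by linarith
    have hstep := one_step (K := K) (c := c) (D := D) (a := a) (v := v) (M := M) hc hcK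
      (by rw [hv]; exact VV_anti hc1 hcK2 n a)
      (fun τ => by rw [hv]; exact VV_nonneg hc1 hcK2 n _)
      (by
        rw [hM]
        intro τ τ' h
        have h1 : (τ : ℕ) ≤ τ' := h
        have h2 : stp s B f R τ' ⊆ stp s B f R τ := by
          unfold stp
          refine union_subset_union_right fun y hy => ?_
          rw [mem_filter] at hy ⊢
          exact ⟨hy.1, lt_of_le_of_lt h1 hy.2⟩
        have h3 := card_le_card (sdiff_subset_sdiff (Subset.refl B) h2)
        exact Nat.cast_le.mpr h3)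
      (fun τ => by rw [hM]; exact Nat.cast_nonneg _)
      (fun τ => by
        rw [hM, hD]
        have h3 := card_le_card (sdiff_subset_sdiff (Subset.refl B)
          (show R ⊆ stp s B f R τ from subset_union_left))
        exact Nat.cast_le.mpr h3)
      (by rw [hD]; exact Nat.cast_nonneg _)
      (by
        rw [hM, hD]
        exact sum_stp (hK R hR hRB) (hex R hR hRB))
    have h1 : ∑ ω : Fin (n + 1) → Fin K × Bool,
        ((B \ run s B f K side (n + 1) R a ω).card : ℝ) =
        ∑ p : Fin K × Bool, ∑ ω : Fin n → Fin K × Bool,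
          ((B \ run s B f K side n (if p.2 = side ∧ ok K a p.1 then stp s B f R p.1 else R)
            (upd a p.1) ω).card : ℝ) := by
      rw [← Fintype.sum_prod_type']
      refine (Fintype.sum_equiv (Fin.consEquiv (fun _ => Fin K × Bool)) _ _ fun p => ?_).symm
      simp only [run, Fin.consEquiv_apply, Fin.cons_zero, Fin.cons_succ]
    rw [h1]
    calc ∑ p : Fin K × Bool, ∑ ω : Fin n → Fin K × Bool,
          ((B \ run s B f K side n (if p.2 = side ∧ ok K a p.1 then stp s B f R p.1 else R)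
            (upd a p.1) ω).card : ℝ)
        ≤ ∑ p : Fin K × Bool, (2 * K) ^ n * v p.1 *
            (if p.2 = side ∧ ok K a p.1 then M p.1 else D) := by
          refine sum_le_sum fun p _ => ?_
          rw [hv, hM, hD]
          split_ifs with hp
          · exact ih _ (stp_nonempty hR _) (stp_subset hRB _) _
          · exact ih _ hR hRB _
      _ = (2 * K) ^ n * ∑ τ : Fin K, v τ * (D + if ok K a τ then M τ else D) := by
          rw [Fintype.sum_prod_type, mul_sum]
          refine sum_congr rfl fun τ _ => ?_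
          rw [Fintype.sum_bool]
          cases side <;> by_cases hp : ok K a τ <;> simp [hp] <;> ring
      _ ≤ (2 * K) ^ n * (2 * D * ∑ τ : Fin K, ww c K a τ * v τ) :=
          mul_le_mul_of_nonneg_left hstep (by positivity)
      _ = (2 * K) ^ (n + 1) * VV c K (n + 1) a * D := by
          rw [VV, hv, pow_succ]
          field_simp
      _ = _ := by rw [hD]

end Pool.Agent.H70.CP
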