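import Pool.Agent.H70.CP.Val
import Pool.Agent.H70.CP.Grow

/-!
# Closing up: the constant `27 / 10`
-/

set_option autoImplicit false

namespace Pool.Agent.H70.CP

open Finset Filter Topology Pool.Agent.H81.RD Pool.Agent.H81.RE

variable {V : Type}

/-- **Closed walks exist.** -/
theorem exists_closed [DecidableEq V] {s : V → V → ℕ} (hs0 : ∀ u, s u u = 0) (B : Finset V)
    (hB2 : 2 ≤ B.card)
    (hB : ∀ u ∈ B, (27 / 10 : ℝ) * ((B.card : ℝ) - 1) ≤ ∑ y ∈ B, (s u y : ℝ)) :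
    ∃ (v : V) (N : ℕ → ℕ) (L : ℕ), 0 < L ∧ W s v N L v ∧ ∀ T : ℕ, N T ≤ T := by
  refine minimal_ind hs0 ?_ _ B rfl hB2 hB
  clear hB2 hB B
  intro B hB2 hB hexit
  by_contra hcon
  push Not at hcon
  have hBne : B.Nonempty := card_pos.mp (by omega)
  obtain ⟨b0, hb0⟩ := hBne
  -- the exit vertices
  have hf : ∃ f : Finset V → V, ∀ R : Finset V, R.Nonempty → R ⊆ B →
      f R ∈ R ∧ (27 / 10 : ℝ) * ((B \ R).card : ℝ) ≤ ∑ y ∈ B \ R, (s (f R) y : ℝ) := by
    have h1 : ∀ R : Finset V, ∃ u : V, R.Nonempty → R ⊆ B →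
        u ∈ R ∧ (27 / 10 : ℝ) * ((B \ R).card : ℝ) ≤ ∑ y ∈ B \ R, (s u y : ℝ) := by
      intro R
      by_cases h2 : R.Nonempty ∧ R ⊆ B
      · by_cases h3 : R = B
        · obtain ⟨u, hu⟩ := h2.1
          refine ⟨u, fun _ _ => ⟨hu, ?_⟩⟩
          rw [h3]
          simp
        · obtain ⟨u, hu, h4⟩ := hexit R h2.2 h2.1 h3
          exact ⟨u, fun _ _ => ⟨hu, h4⟩⟩
      · exact ⟨b0, fun h3 h4 => absurd ⟨h3, h4⟩ h2⟩
    choose f hf using h1
    exact ⟨f, hf⟩
  obtain ⟨f, hf⟩ := hf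
  -- the number of thresholds
  obtain ⟨K₀, hK₀⟩ := eventually_atTop.mp VV_small
  obtain ⟨K, hKK, hK3, hK⟩ : ∃ K : ℕ, K₀ ≤ K ∧ 3 ≤ K ∧ ∀ u ∈ B, ∀ y ∈ B, s u y ≤ K := by
    refine ⟨K₀ + 3 + ∑ u ∈ B, ∑ y ∈ B, s u y, by omega, by omega, fun u hu y hy => ?_⟩
    have h1 : s u y ≤ ∑ u ∈ B, ∑ y ∈ B, s u y := by
      refine le_trans ?_ (single_le_sum (f := fun u => ∑ y ∈ B, s u y)
        (fun u _ => Nat.zero_le _) hu)
      exact single_le_sum (f := fun y => s u y) (fun y _ => Nat.zero_le _) hy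
    omega
  have hV := hK₀ K hKK
  have hKr : (3 : ℝ) ≤ K := by exact_mod_cast hK3
  have hn : (2 : ℝ) ≤ B.card := by exact_mod_cast hB2
  have hn0 : 0 < (B.card : ℝ) * ((B.card : ℝ) - 1) := mul_pos (by linarith) (by linarith)
  have hrun : ∀ (side : Bool) (x : V), x ∈ B →
      ∑ ω : Fin K → Fin K × Bool,
        ((B \ run s B f K side K {x} (fun _ => 0) ω).card : ℝ) ≤
      (2 * K) ^ K * VV (27 / 10) K K (fun _ => 0) * ((B.card : ℝ) - 1) := by
    intro side x hx
    have h1 := sum_run (s := s) (B := B) (f := f) (K := K) (c := 27 / 10) (by norm_num)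
      (by linarith) (fun R h2 h3 => (hf R h2 h3).1)
      (fun R h2 h3 y hy => hK _ (h3 (hf R h2 h3).1) y hy)
      (fun R h2 h3 => (hf R h2 h3).2) side K {x} (singleton_nonempty x) (by simpa using hx)
      (fun _ => 0)
    have h2 : ((B \ {x}).card : ℝ) = (B.card : ℝ) - 1 := by
      rw [card_sdiff_of_subset (by simpa using hx), card_singleton, Nat.cast_sub (by omega),
        Nat.cast_one]
    rw [h2] at h1
    exact h1
  have hgood : ∀ ω : Fin K → Fin K × Bool, (B.card : ℝ) * ((B.card : ℝ) - 1) ≤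
      ∑ x ∈ B, (((B \ run s B f K true K {x} (fun _ => 0) ω).card : ℝ) +
        ((B \ run s B f K false K {x} (fun _ => 0) ω).card : ℝ)) := by
    intro ω
    refine pair_count B (fun x => run s B f K true K {x} (fun _ => 0) ω)
      (fun x => run s B f K false K {x} (fun _ => 0) ω)
      (fun x hx => run_subset true K _ (by simpa using hx) _ _)
      (fun x hx => run_subset false K _ (by simpa using hx) _ _) ?_
    intro x hx y hy hxy h2 h3
    obtain ⟨r, hr, N1, M1, hW1, hN1⟩ := run_reach (fun R h4 h5 => (hf R h4 h5).1) true K {x}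
      (singleton_nonempty x) (by simpa using hx) _ _ y h2
    obtain ⟨r', hr', N2, M2, hW2, hN2⟩ := run_reach (fun R h4 h5 => (hf R h4 h5).1) false K {y}
      (singleton_nonempty y) (by simpa using hy) _ _ x h3
    rw [mem_singleton] at hr hr'
    subst hr
    subst hr'
    obtain ⟨T, hT⟩ := hcon r _ (M1 + M2) (by
      by_contra h4
      exact hxy (hW1.eq_of_zero (by omega))) (hW1.trans hW2)
    have h5 := used_le K ω T
    have h7 := hN1 T
    have h8 := hN2 T
    omega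
  have htotal : ∑ ω : Fin K → Fin K × Bool, ∑ x ∈ B,
      (((B \ run s B f K true K {x} (fun _ => 0) ω).card : ℝ) +
        ((B \ run s B f K false K {x} (fun _ => 0) ω).card : ℝ)) ≤
      (2 * K) ^ K * (2 * VV (27 / 10) K K (fun _ => 0)) *
        ((B.card : ℝ) * ((B.card : ℝ) - 1)) := by
    rw [sum_comm]
    have h1 : ∀ x ∈ B, ∑ ω : Fin K → Fin K × Bool,
        (((B \ run s B f K true K {x} (fun _ => 0) ω).card : ℝ) +
          ((B \ run s B f K false K {x} (fun _ => 0) ω).card : ℝ)) ≤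
        2 * ((2 * K) ^ K * VV (27 / 10) K K (fun _ => 0) * ((B.card : ℝ) - 1)) := by
      intro x hx
      rw [sum_add_distrib]
      linarith [hrun true x hx, hrun false x hx]
    refine (sum_le_sum h1).trans (le_of_eq ?_)
    rw [sum_const, nsmul_eq_mul]
    ring
  have hfin : (2 * (K : ℝ)) ^ K * ((B.card : ℝ) * ((B.card : ℝ) - 1)) ≤
      (2 * K) ^ K * (2 * VV (27 / 10) K K (fun _ => 0)) *
        ((B.card : ℝ) * ((B.card : ℝ) - 1)) := by
    refine le_trans ?_ htotal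
    refine le_trans (le_of_eq ?_) (sum_le_sum fun ω (_ : ω ∈ univ) => hgood ω)
    rw [sum_const, card_univ, Fintype.card_fun, Fintype.card_prod, Fintype.card_fin,
      Fintype.card_bool, nsmul_eq_mul]
    push_cast
    ring
  have h1 := le_of_mul_le_mul_right hfin hn0
  have hp : (0 : ℝ) < (2 * K) ^ K := by positivity
  nlinarith

end Pool.Agent.H70.CP
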