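import Pool.Agent.H70.CP.Zed
import Pool.Agent.H81.RE.Ballot

/-!
# The probabilities `PP K 0 n 0`, `PP K 1 n 0`
-/

set_option autoImplicit false

namespace Pool.Agent.H70.CP

open Finset Pool.Agent.H81.RE

/-- the counts of a sequence -/
def cnt {n K : ℕ} (ω : Fin n → Fin K) (T : ℕ) : ℕ :=
  ((univ : Finset (Fin n)).filter fun i => (ω i : ℕ) < T).card

theorem cnt_succ {n K : ℕ} (ω : Fin (n + 1) → Fin K) (T : ℕ) :
    cnt ω T = (if (ω 0 : ℕ) < T then 1 else 0) + cnt (fun i => ω i.succ) T := by
  unfold cnt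
  rw [Fin.card_filter_univ_succ]
  split_ifs <;> simp [add_comm]

open Classical in
theorem PP_eq {K b : ℕ} (hK : 0 < K) (n : ℕ) : ∀ a : ℕ → ℕ,
    PP K b n a = (((univ : Finset (Fin n → Fin K)).filter fun ω =>
      ok K (fun T => a T + cnt ω T) b).card : ℝ) / K ^ n := by
  have hKr : (K : ℝ) ≠ 0 := by positivity
  induction n with
  | zero =>
    intro a
    have h1 : ∀ ω : Fin 0 → Fin K, (fun T => a T + cnt ω T) = a := by
      intro ω
      funext T
      simp [cnt]
    unfold PP
    simp only [h1, pow_zero, div_one]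
    by_cases h : ok K a b
    · rw [if_pos h, filter_true_of_mem fun _ _ => h, card_univ, Fintype.card_fun,
        Fintype.card_fin, Fintype.card_fin, pow_zero, Nat.cast_one]
    · rw [if_neg h, filter_false_of_mem fun _ _ => h, card_empty, Nat.cast_zero]
  | succ n ih =>
    intro a
    have h1 : (((univ : Finset (Fin (n + 1) → Fin K)).filter fun ω =>
        ok K (fun T => a T + cnt ω T) b).card : ℝ) =
        ∑ τ : Fin K, (((univ : Finset (Fin n → Fin K)).filter fun ω =>
          ok K (fun T => upd a τ T + cnt ω T) b).card : ℝ) := by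
      simp only [card_filter, Nat.cast_sum]
      rw [← Fintype.sum_prod_type']
      refine (Fintype.sum_equiv (Fin.consEquiv (fun _ => Fin K)) _ _ fun p => ?_).symm
      have h2 : (fun T => a T + cnt (Fin.cons (α := fun _ => Fin K) p.1 p.2) T) =
          fun T => upd a p.1 T + cnt p.2 T := by
        funext T
        rw [cnt_succ, Fin.cons_zero]
        simp only [Fin.cons_succ]
        unfold upd
        ring
      have h3 : (Fin.consEquiv fun _ : Fin (n + 1) => Fin K) p =
          Fin.cons (α := fun _ => Fin K) p.1 p.2 := rfl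
      rw [h3, h2]
    rw [PP, h1, sum_congr rfl fun τ _ => ih _, ← sum_div, pow_succ]
    field_simp

open Classical in
/-- sequences without the value `0` -/
theorem card_none (k n : ℕ) :
    (k + 2 - n) * (k + 2) ^ n ≤ (k + 2) *
      ((univ : Finset (Fin n → Fin (k + 2))).filter fun ω =>
        ok (k + 2) (cnt ω) 0 ∧ ∀ j, (ω j : ℕ) ≠ 0).card := by
  have h1 := ballot (ι := Fin n) (k + 1)
  rw [Fintype.card_fin] at h1
  refine h1.trans (Nat.mul_le_mul_left _ ?_)
  refine card_le_card_of_injOn (fun (ω : Fin n → Fin (k + 1)) (j : Fin n) => (ω j).succ) ?_ ?_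
  · intro ω hω
    rw [mem_coe, mem_filter] at hω ⊢
    refine ⟨mem_univ _, fun T hT _ => ?_, fun j => ?_⟩
    · have h2 := hω.2 (T - 1)
      have h3 : cnt (fun j : Fin n => (ω j).succ) T =
          ((univ : Finset (Fin n)).filter fun i => (ω i : ℕ) < T - 1).card := by
        unfold cnt
        congr 1
        refine filter_congr fun j _ => ?_
        rw [Fin.val_succ]
        omega
      rw [h3]
      omega
    · simp
  · intro ω _ ω' _ h
    funext j
    exact Fin.succ_injective _ (congrFun h j)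

open Classical in
/-- sequences with the value `0` exactly at `p` -/
theorem card_some (k n : ℕ) (p : Fin n) :
    (k + 2 - n) * (k + 1) ^ n ≤ (k + 1) ^ 2 *
      ((univ : Finset (Fin n → Fin (k + 2))).filter fun ω =>
        ok (k + 2) (cnt ω) 1 ∧ ∀ j, (ω j : ℕ) = 0 ↔ p = j).card := by
  obtain ⟨n, rfl⟩ : ∃ m, n = m + 1 := ⟨n - 1, by have := p.isLt; omega⟩
  have h1 := ballot (ι := {j : Fin (n + 1) // j ≠ p}) k
  have hc : Fintype.card {j : Fin (n + 1) // j ≠ p} = n := by
    rw [Fintype.card_subtype_compl, Fintype.card_fin, Fintype.card_subtype_eq]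
    omega
  rw [hc] at h1
  have h2 : ((univ : Finset ({j : Fin (n + 1) // j ≠ p} → Fin k)).filter
      fun ω : {j : Fin (n + 1) // j ≠ p} → Fin k => ∀ t : ℕ,
        ((univ : Finset {j : Fin (n + 1) // j ≠ p}).filter fun i => (ω i : ℕ) < t).card ≤ t).card ≤
      ((univ : Finset (Fin (n + 1) → Fin (k + 2))).filter fun ω =>
        ok (k + 2) (cnt ω) 1 ∧ ∀ j, (ω j : ℕ) = 0 ↔ p = j).card := by
    refine card_le_card_of_injOn (fun (ω : {j : Fin (n + 1) // j ≠ p} → Fin k) (j : Fin (n + 1)) =>
      if h : j = p then (0 : Fin (k + 2)) else (ω ⟨j, h⟩).succ.succ) ?_ ?_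
    · intro ω hω
      rw [mem_coe, mem_filter] at hω ⊢
      refine ⟨mem_univ _, fun T hT _ => ?_, fun j => ?_⟩
      · have h3 := hω.2 (T - 2)
        have h4 : ((univ : Finset (Fin (n + 1))).filter fun i =>
            (((if h : i = p then (0 : Fin (k + 2)) else (ω ⟨i, h⟩).succ.succ) : Fin (k + 2)) : ℕ)
              < T) ⊆
            insert p (((univ : Finset {j : Fin (n + 1) // j ≠ p}).filter
              fun i => (ω i : ℕ) < T - 2).map (Function.Embedding.subtype _)) := by
          intro j hj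
          rw [mem_filter] at hj
          rw [mem_insert, mem_map]
          by_cases h : j = p
          · exact Or.inl h
          · right
            refine ⟨⟨j, h⟩, ?_, rfl⟩
            rw [mem_filter]
            refine ⟨mem_univ _, ?_⟩
            have h5 := hj.2
            rw [dif_neg h, Fin.val_succ, Fin.val_succ] at h5
            omega
        have h5 := (card_le_card h4).trans (card_insert_le _ _)
        rw [card_map] at h5
        change ((univ : Finset (Fin (n + 1))).filter fun i =>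
            (((if h : i = p then (0 : Fin (k + 2)) else (ω ⟨i, h⟩).succ.succ) : Fin (k + 2)) : ℕ)
              < T).card < T
        omega
      · by_cases h : j = p
        · simp [h]
        · simp only [dif_neg h]
          constructor
          · intro h5
            rw [Fin.val_succ] at h5
            omega
          · intro h5
            exact absurd h5.symm h
    · intro ω _ ω' _ h
      funext j
      have h3 := congrFun h j.1
      simp only [dif_neg j.2] at h3
      exact Fin.succ_injective _ (Fin.succ_injective _ h3)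
  have h3 : k + 2 - (n + 1) = k + 1 - n := by omega
  rw [h3, pow_succ]
  calc (k + 1 - n) * ((k + 1) ^ n * (k + 1)) = (k + 1) * ((k + 1 - n) * (k + 1) ^ n) := by ring
    _ ≤ (k + 1) * ((k + 1) * _) := Nat.mul_le_mul_left _ (h1.trans (Nat.mul_le_mul_left _ h2))
    _ = _ := by ring

theorem PP_zero_ge (k n : ℕ) (hn : n ≤ k + 2) :
    ((k : ℝ) + 2 - n) / (k + 2) ≤ PP (k + 2) 0 n (fun _ => 0) := by
  classical
  rw [PP_eq (by omega)]
  have h1 := card_none k n
  have h2 : ((univ : Finset (Fin n → Fin (k + 2))).filter fun ω =>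
        ok (k + 2) (cnt ω) 0 ∧ ∀ j, (ω j : ℕ) ≠ 0).card ≤
      ((univ : Finset (Fin n → Fin (k + 2))).filter fun ω =>
        ok (k + 2) (fun T => (fun _ => 0) T + cnt ω T) 0).card := by
    refine card_le_card fun ω hω => ?_
    rw [mem_filter] at hω ⊢
    refine ⟨mem_univ _, ?_⟩
    simp only [zero_add]
    exact hω.2.1
  obtain ⟨g, hg⟩ : ∃ g, g = ((univ : Finset (Fin n → Fin (k + 2))).filter fun ω =>
        ok (k + 2) (fun T => (fun _ => 0) T + cnt ω T) 0).card := ⟨_, rfl⟩
  rw [← hg] at h2 ⊢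
  have h3 : (k + 2 - n) * (k + 2) ^ n ≤ (k + 2) * g := h1.trans (Nat.mul_le_mul_left _ h2)
  have h4 : (((k + 2 - n : ℕ) : ℝ)) * (k + 2) ^ n ≤ (k + 2) * g := by exact_mod_cast h3
  rw [Nat.cast_sub hn] at h4
  push_cast at h4 ⊢
  rw [div_le_div_iff₀ (by positivity) (by positivity)]
  linarith

theorem PP_one_ge (k n : ℕ) (hn : n ≤ k + 2) :
    ((k : ℝ) + 2 - n) / (k + 2) +
      n * ((k : ℝ) + 2 - n) * (((k : ℝ) + 1) / (k + 2)) ^ n / (k + 1) ^ 2 ≤
      PP (k + 2) 1 n (fun _ => 0) := by
  classical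
  rw [PP_eq (by omega)]
  have h1 := card_none k n
  have h2 := card_some k n
  obtain ⟨F, hF⟩ : ∃ F : Option (Fin n) → Finset (Fin n → Fin (k + 2)), F = fun o =>
      univ.filter fun ω : Fin n → Fin (k + 2) => ok (k + 2) (cnt ω) 1 ∧
        ∀ j, (ω j : ℕ) = 0 ↔ o = some j := ⟨_, rfl⟩
  have hF0 : ((univ : Finset (Fin n → Fin (k + 2))).filter fun ω =>
        ok (k + 2) (cnt ω) 0 ∧ ∀ j, (ω j : ℕ) ≠ 0).card ≤ (F none).card := by
    refine card_le_card fun ω hω => ?_
    rw [hF]
    rw [mem_filter] at hω ⊢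
    refine ⟨mem_univ _, ok_le (Nat.zero_le _) hω.2.1, fun j => ?_⟩
    constructor
    · intro h
      exact absurd h (hω.2.2 j)
    · intro h
      cases h
  have hF1 : ∀ p : Fin n, ((univ : Finset (Fin n → Fin (k + 2))).filter fun ω =>
        ok (k + 2) (cnt ω) 1 ∧ ∀ j, (ω j : ℕ) = 0 ↔ p = j).card = (F (some p)).card := by
    intro p
    rw [hF]
    simp only [Option.some_inj]
  have hsum : (F none).card + ∑ p : Fin n, (F (some p)).card ≤
      ((univ : Finset (Fin n → Fin (k + 2))).filter fun ω =>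
        ok (k + 2) (fun T => (fun _ => 0) T + cnt ω T) 1).card := by
    rw [← Fintype.sum_option (f := fun o => (F o).card), ← card_biUnion]
    · refine card_le_card fun ω hω => ?_
      rw [mem_biUnion] at hω
      obtain ⟨o, _, ho⟩ := hω
      rw [hF] at ho
      rw [mem_filter] at ho ⊢
      refine ⟨mem_univ _, ?_⟩
      simp only [zero_add]
      exact ho.2.1
    · intro o _ o' _ hne
      rw [Function.onFun, disjoint_left]
      intro ω h3 h4
      rw [hF] at h3 h4
      rw [mem_filter] at h3 h4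
      apply hne
      ext j
      rw [← h3.2.2 j, ← h4.2.2 j]
  obtain ⟨g, hg⟩ : ∃ g, g = ((univ : Finset (Fin n → Fin (k + 2))).filter fun ω =>
        ok (k + 2) (fun T => (fun _ => 0) T + cnt ω T) 1).card := ⟨_, rfl⟩
  rw [← hg] at hsum ⊢
  obtain ⟨A, hA⟩ : ∃ A : ℝ, A = (((k + 2 - n : ℕ) : ℝ)) := ⟨_, rfl⟩
  have hA' : A = (k : ℝ) + 2 - n := by rw [hA, Nat.cast_sub hn]; push_cast; ring
  have g0 : A * (k + 2) ^ n ≤ (k + 2) * ((F none).card : ℝ) := by
    have := h1.trans (Nat.mul_le_mul_left _ hF0)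
    rw [hA]
    exact_mod_cast this
  have g1 : ∀ p : Fin n, A * (k + 1) ^ n ≤ (k + 1) ^ 2 * ((F (some p)).card : ℝ) := by
    intro p
    have := h2 p
    rw [hF1 p] at this
    rw [hA]
    exact_mod_cast this
  have g2 : ((F none).card : ℝ) + ∑ p : Fin n, ((F (some p)).card : ℝ) ≤ g := by
    exact_mod_cast hsum
  have g3 : (n : ℝ) * (A * (k + 1) ^ n) ≤ (k + 1) ^ 2 * ∑ p : Fin n, ((F (some p)).card : ℝ) := by
    rw [mul_sum]
    refine le_trans (le_of_eq ?_) (sum_le_sum fun p _ => g1 p)
    rw [sum_const, card_univ, Fintype.card_fin, nsmul_eq_mul]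
  rw [← hA']
  push_cast
  have hk : (0 : ℝ) < (k : ℝ) + 2 := by positivity
  have hk1 : (0 : ℝ) < (k : ℝ) + 1 := by positivity
  have e : (A / (k + 2) + n * A * (((k : ℝ) + 1) / (k + 2)) ^ n / (k + 1) ^ 2) =
      (A * (k + 2) ^ n / (k + 2) + (n * (A * (k + 1) ^ n)) / (k + 1) ^ 2) / (k + 2) ^ n := by
    rw [div_pow]
    field_simp
  rw [e]
  refine div_le_div_of_nonneg_right ?_ (by positivity)
  have g4 : A * (k + 2) ^ n / (k + 2) ≤ ((F none).card : ℝ) := by
    rw [div_le_iff₀ hk]
    linarith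
  have g5 : (n * (A * (k + 1) ^ n)) / (k + 1) ^ 2 ≤ ∑ p : Fin n, ((F (some p)).card : ℝ) := by
    rw [div_le_iff₀ (by positivity)]
    linarith
  linarith

end Pool.Agent.H70.CP
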