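import Pool.Agent.H81.RE.Close

/-!
# The coupled process: definitions

`K` arrivals `(τ, side)` in `Fin K × Bool`. The state `a : ℕ → ℕ` counts the arrivals so far,
`a T` = number of the arrivals `< T` (both sides, used or not). An arrival `τ` is used iff
`ok K a τ`; then the set of its side makes the step `stp` of `H81/RE`.
-/

set_option autoImplicit false

namespace Pool.Agent.H70.CP

open Finset Pool.Agent.H81.RD Pool.Agent.H81.RE

/-- the counts after one more arrival `τ` -/
def upd (a : ℕ → ℕ) (τ : ℕ) (T : ℕ) : ℕ := a T + if τ < T then 1 else 0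

/-- the arrival `τ` may be used -/
def ok (K : ℕ) (a : ℕ → ℕ) (τ : ℕ) : Prop := ∀ T, τ < T → T ≤ K → a T < T

open Classical in
/-- the gain `(c - β)⁺ / 2K`, `β` = number of the forbidden thresholds, cut to `0` for `β ≥ 2` -/
noncomputable def gg (c : ℝ) (K : ℕ) (a : ℕ → ℕ) : ℝ :=
  if ok K a 0 then c / (2 * K) else if ok K a 1 then (c - 1) / (2 * K) else 0

open Classical in
/-- the weight of the arrival `τ` -/
noncomputable def ww (c : ℝ) (K : ℕ) (a : ℕ → ℕ) (τ : ℕ) : ℝ :=
  if ok K a τ then 1 - gg c K a else 1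

/-- the potential -/
noncomputable def VV (c : ℝ) (K : ℕ) : ℕ → (ℕ → ℕ) → ℝ
  | 0, _ => 1
  | n + 1, a => (∑ τ : Fin K, ww c K a τ * VV c K n (upd a τ)) / K

open Classical in
/-- `E q ^ #{i < n : ok K a_i b}` -/
noncomputable def ZZ (q : ℝ) (K b : ℕ) : ℕ → (ℕ → ℕ) → ℝ
  | 0, _ => 1
  | n + 1, a => (if ok K a b then q else 1) * ((∑ τ : Fin K, ZZ q K b n (upd a τ)) / K)

open Classical in
/-- the probability of `ok K a_n b` -/
noncomputable def PP (K b : ℕ) : ℕ → (ℕ → ℕ) → ℝ
  | 0, a => if ok K a b then 1 else 0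
  | n + 1, a => (∑ τ : Fin K, PP K b n (upd a τ)) / K

variable {V : Type} [DecidableEq V]

open Classical in
/-- the set of one side after the arrivals `ω` -/
noncomputable def run (s : V → V → ℕ) (B : Finset V) (f : Finset V → V) (K : ℕ) (side : Bool) :
    (n : ℕ) → Finset V → (ℕ → ℕ) → (Fin n → Fin K × Bool) → Finset V
  | 0, R, _, _ => R
  | n + 1, R, a, ω => run s B f K side n
      (if (ω 0).2 = side ∧ ok K a (ω 0).1 then stp s B f R (ω 0).1 else R)
      (upd a (ω 0).1) (fun i => ω i.succ)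

open Classical in
/-- the number of the used arrivals `< T` of one side -/
noncomputable def used (K : ℕ) (side : Bool) :
    (n : ℕ) → (ℕ → ℕ) → (Fin n → Fin K × Bool) → ℕ → ℕ
  | 0, _, _, _ => 0
  | n + 1, a, ω, T =>
      (if (ω 0).2 = side ∧ ok K a (ω 0).1 ∧ ((ω 0).1 : ℕ) < T then 1 else 0) +
        used K side n (upd a (ω 0).1) (fun i => ω i.succ) T

end Pool.Agent.H70.CP
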