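import Pool.Agent.H70.CP.Defs

/-!
# The potential is monotone in the counts

Proof. `0 ≤ gg ≤ c/2K ≤ 1` (`1 ≤ c ≤ 2K`). If `a ≤ a'` pointwise then `ok K a' τ → ok K a τ`, so
`gg a' ≤ gg a` and `0 ≤ ww a τ ≤ ww a' τ`. Induction on `n` (`upd` is monotone).
`VV_anti`: `τ ≤ τ'` gives `upd a τ' ≤ upd a τ` pointwise.
-/

set_option autoImplicit false

namespace Pool.Agent.H70.CP

open Finset

theorem ok_anti {K : ℕ} {a a' : ℕ → ℕ} (h : ∀ T, a T ≤ a' T) {τ : ℕ} (h' : ok K a' τ) :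
    ok K a τ := fun T h1 h2 => (h T).trans_lt (h' T h1 h2)

theorem ok_le {K : ℕ} {a : ℕ → ℕ} {τ τ' : ℕ} (h : τ ≤ τ') (h' : ok K a τ) : ok K a τ' :=
  fun T h1 h2 => h' T (by omega) h2

theorem gg_nonneg {c : ℝ} (hc : 1 ≤ c) (K : ℕ) (a : ℕ → ℕ) : 0 ≤ gg c K a := by
  unfold gg
  split_ifs
  · positivity
  · exact div_nonneg (by linarith) (by positivity)
  · exact le_rfl

theorem gg_le_one {c : ℝ} {K : ℕ} (hc : 1 ≤ c) (hcK : c ≤ 2 * K) (a : ℕ → ℕ) :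
    gg c K a ≤ 1 := by
  have h : (0 : ℝ) < 2 * K := by linarith
  unfold gg
  split_ifs
  · rw [div_le_one h]; exact hcK
  · rw [div_le_one h]; linarith
  · norm_num

theorem gg_anti {c : ℝ} (hc : 1 ≤ c) (K : ℕ) {a a' : ℕ → ℕ} (h : ∀ T, a T ≤ a' T) :
    gg c K a' ≤ gg c K a := by
  have h0 := gg_nonneg hc K a
  by_cases h1 : ok K a' 0
  · unfold gg
    rw [if_pos h1, if_pos (ok_anti h h1)]
  · by_cases h2 : ok K a' 1
    · have h3 : ok K a 1 := ok_anti h h2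
      unfold gg
      rw [if_neg h1, if_pos h2]
      split_ifs
      · exact div_le_div_of_nonneg_right (by linarith) (by positivity)
      · exact le_rfl
    · have h3 : gg c K a' = 0 := by
        unfold gg
        rw [if_neg h1, if_neg h2]
      rw [h3]
      exact h0

theorem ww_nonneg {c : ℝ} {K : ℕ} (hc : 1 ≤ c) (hcK : c ≤ 2 * K) (a : ℕ → ℕ) (τ : ℕ) :
    0 ≤ ww c K a τ := by
  unfold ww
  split_ifs
  · linarith [gg_le_one hc hcK a]
  · norm_num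

theorem ww_mono {c : ℝ} {K : ℕ} (hc : 1 ≤ c) {a a' : ℕ → ℕ}
    (h : ∀ T, a T ≤ a' T) (τ : ℕ) : ww c K a τ ≤ ww c K a' τ := by
  unfold ww
  by_cases h1 : ok K a' τ
  · rw [if_pos h1, if_pos (ok_anti h h1)]
    linarith [gg_anti hc K h]
  · rw [if_neg h1]
    split_ifs
    · linarith [gg_nonneg hc K a]
    · exact le_rfl

theorem VV_nonneg {c : ℝ} {K : ℕ} (hc : 1 ≤ c) (hcK : c ≤ 2 * K) (n : ℕ) :
    ∀ a : ℕ → ℕ, 0 ≤ VV c K n a := by
  induction n with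
  | zero => intro a; simp [VV]
  | succ n ih =>
    intro a
    exact div_nonneg (sum_nonneg fun τ _ => mul_nonneg (ww_nonneg hc hcK a τ) (ih _))
      (Nat.cast_nonneg K)

theorem VV_mono {c : ℝ} {K : ℕ} (hc : 1 ≤ c) (hcK : c ≤ 2 * K) (n : ℕ) :
    ∀ a a' : ℕ → ℕ, (∀ T, a T ≤ a' T) → VV c K n a ≤ VV c K n a' := by
  induction n with
  | zero => intro a a' _; simp [VV]
  | succ n ih =>
    intro a a' h
    refine div_le_div_of_nonneg_right (sum_le_sum fun τ _ => ?_) (Nat.cast_nonneg K)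
    refine mul_le_mul (ww_mono hc h τ) (ih _ _ fun T => ?_) (VV_nonneg hc hcK n _)
      (ww_nonneg hc hcK a' τ)
    unfold upd
    exact Nat.add_le_add_right (h T) _

theorem VV_anti {c : ℝ} {K : ℕ} (hc : 1 ≤ c) (hcK : c ≤ 2 * K) (n : ℕ) (a : ℕ → ℕ) :
    Antitone fun τ : Fin K => VV c K n (upd a τ) := by
  intro τ τ' h
  refine VV_mono hc hcK n _ _ fun T => ?_
  unfold upd
  refine Nat.add_le_add_left ?_ _
  have h1 : (τ : ℕ) ≤ τ' := h
  split_ifs <;> omega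

end Pool.Agent.H70.CP
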