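import Mathlib

/-!
# The sums and their limits

`a = 27 / 20`, `q = exp (- a / K)`, `r = q (1 - 1 / K)`.
-/

set_option autoImplicit false

namespace Pool.Agent.H70.CP

open Finset Filter Topology

theorem sum_one (r : ℝ) (m : ℕ) : (1 - r) ^ 2 * ∑ i ∈ range m, (i : ℝ) * r ^ i =
    r - m * r ^ m + (m - 1) * r ^ (m + 1) := by
  induction m with
  | zero => simp
  | succ m ih =>
    rw [sum_range_succ, mul_add, ih]
    push_cast
    ring

theorem sum_two (r : ℝ) (m : ℕ) : (1 - r) ^ 3 * ∑ i ∈ range m, (i : ℝ) ^ 2 * r ^ i =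
    r + r ^ 2 - m ^ 2 * r ^ m + (2 * m ^ 2 - 2 * m - 1) * r ^ (m + 1) -
      (m - 1) ^ 2 * r ^ (m + 2) := by
  induction m with
  | zero => simp
  | succ m ih =>
    rw [sum_range_succ, mul_add, ih]
    push_cast
    ring

theorem sum_mix (r : ℝ) (K : ℕ) :
    (1 - r) ^ 3 * ∑ i ∈ range K, (i : ℝ) * ((K : ℝ) - i) * r ^ i =
      r * ((K - 1) - (K + 1) * r + (K + 1) * r ^ K - (K - 1) * r ^ (K + 1)) := by
  have h1 : ∑ i ∈ range K, (i : ℝ) * ((K : ℝ) - i) * r ^ i =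
      K * ∑ i ∈ range K, (i : ℝ) * r ^ i - ∑ i ∈ range K, (i : ℝ) ^ 2 * r ^ i := by
    rw [mul_sum, ← sum_sub_distrib]
    exact sum_congr rfl fun i _ => by ring
  have h2 := sum_one r K
  have h3 := sum_two r K
  calc (1 - r) ^ 3 * ∑ i ∈ range K, (i : ℝ) * ((K : ℝ) - i) * r ^ i
      = K * (1 - r) * ((1 - r) ^ 2 * ∑ i ∈ range K, (i : ℝ) * r ^ i) -
          (1 - r) ^ 3 * ∑ i ∈ range K, (i : ℝ) ^ 2 * r ^ i := by rw [h1]; ring
    _ = _ := by rw [h2, h3]; ring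

theorem sum_lin (q : ℝ) (K : ℕ) :
    (1 - q) ^ 2 * ∑ i ∈ range K, q ^ i * ((K : ℝ) - i) = K * (1 - q) - q * (1 - q ^ K) := by
  have h1 : ∑ i ∈ range K, q ^ i * ((K : ℝ) - i) =
      K * ∑ i ∈ range K, q ^ i - ∑ i ∈ range K, (i : ℝ) * q ^ i := by
    rw [mul_sum, ← sum_sub_distrib]
    exact sum_congr rfl fun i _ => by ring
  have h2 := sum_one q K
  have h3 := mul_neg_geom_sum q K
  calc (1 - q) ^ 2 * ∑ i ∈ range K, q ^ i * ((K : ℝ) - i)
      = K * (1 - q) * ((1 - q) * ∑ i ∈ range K, q ^ i) -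
          (1 - q) ^ 2 * ∑ i ∈ range K, (i : ℝ) * q ^ i := by rw [h1]; ring
    _ = _ := by rw [h2, h3]; ring

/-- `q` -/
noncomputable def qq (K : ℕ) : ℝ := Real.exp (-(27 / 20) / K)

theorem qq_pos (K : ℕ) : 0 < qq K := Real.exp_pos _

theorem qq_lt_one {K : ℕ} (hK : 0 < K) : qq K < 1 := by
  unfold qq
  rw [Real.exp_lt_one_iff]
  have : (0 : ℝ) < K := by exact_mod_cast hK
  exact div_neg_of_neg_of_pos (by norm_num) this

theorem qq_pow {K : ℕ} (hK : 0 < K) : qq K ^ K = Real.exp (-(27 / 20)) := by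
  unfold qq
  have : (K : ℝ) ≠ 0 := by positivity
  rw [← Real.exp_nat_mul]
  congr 1
  field_simp

theorem qq_lo {K : ℕ} (hK : 0 < K) : 27 / 20 * qq K ≤ K * (1 - qq K) := by
  have hKr : (0 : ℝ) < K := by exact_mod_cast hK
  have h1 := Real.add_one_le_exp (27 / 20 / (K : ℝ))
  have h2 : Real.exp (27 / 20 / (K : ℝ)) * qq K = 1 := by
    unfold qq
    rw [← Real.exp_add]
    have : 27 / 20 / (K : ℝ) + -(27 / 20) / K = 0 := by ring
    rw [this, Real.exp_zero]
  have h3 := mul_le_mul_of_nonneg_right h1 (qq_pos K).le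
  rw [h2] at h3
  have h4 : (27 / 20 / (K : ℝ) + 1) * qq K * K = 27 / 20 * qq K + K * qq K := by
    field_simp
  have h5 := mul_le_mul_of_nonneg_right h3 hKr.le
  rw [h4] at h5
  linarith

theorem qq_hi {K : ℕ} (hK : 0 < K) : K * (1 - qq K) ≤ 27 / 20 := by
  have hKr : (0 : ℝ) < K := by exact_mod_cast hK
  have h1 := Real.add_one_le_exp (-(27 / 20) / (K : ℝ))
  have h2 : (K : ℝ) * (-(27 / 20) / K) = -(27 / 20) := by field_simp
  have h3 : 1 - qq K ≤ -(-(27 / 20) / (K : ℝ)) := by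
    unfold qq
    linarith
  have h4 := mul_le_mul_of_nonneg_left h3 hKr.le
  linarith

/-- the first sum -/
theorem first_sum {K : ℕ} (hK : 0 < K) :
    1 - (1 - Real.exp (-(27 / 20))) / (27 / 20) ≤
      (1 - qq K) * ∑ i ∈ range K, qq K ^ i * (((K : ℝ) - i) / K) := by
  have hKr : (0 : ℝ) < K := by exact_mod_cast hK
  have h0 : 0 < 1 - qq K := by linarith [qq_lt_one hK]
  have h1 := sum_lin (qq K) K
  rw [qq_pow hK] at h1
  have h2 := qq_lo hK
  have h3 : ∑ i ∈ range K, qq K ^ i * (((K : ℝ) - i) / K) =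
      (∑ i ∈ range K, qq K ^ i * ((K : ℝ) - i)) / K := by
    rw [sum_div]
    exact sum_congr rfl fun i _ => by ring
  obtain ⟨S, hS⟩ : ∃ S, S = ∑ i ∈ range K, qq K ^ i * ((K : ℝ) - i) := ⟨_, rfl⟩
  rw [h3, ← hS]
  rw [← hS] at h1
  obtain ⟨z, hz⟩ : ∃ z, z = Real.exp (-(27 / 20)) := ⟨_, rfl⟩
  rw [← hz] at h1 ⊢
  have hz1 : z < 1 := by
    rw [hz, Real.exp_lt_one_iff]
    norm_num
  have h4 : (1 - qq K) * (S / K) = 1 - qq K * (1 - z) / (K * (1 - qq K)) := by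
    have h5 : (1 - qq K) * S = (K * (1 - qq K) - qq K * (1 - z)) / (1 - qq K) := by
      rw [← h1]
      field_simp
    calc (1 - qq K) * (S / K) = ((1 - qq K) * S) / K := by ring
      _ = _ := by
        rw [h5]
        field_simp
  rw [h4]
  have h6 : qq K * (1 - z) / (K * (1 - qq K)) ≤ (1 - z) / (27 / 20) := by
    rw [div_le_div_iff₀ (by positivity) (by norm_num)]
    have := mul_le_mul_of_nonneg_left h2 (by linarith : (0 : ℝ) ≤ 1 - z)
    linarith
  linarith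

/-- the second sum -/
noncomputable def EE (K : ℕ) : ℝ := (1 - qq K) * ∑ i ∈ range K,
  qq K ^ i * ((i : ℝ) * ((K : ℝ) - i) * (((K : ℝ) - 1) / K) ^ i / (K - 1) ^ 2)

/-- `r` -/
noncomputable def rr (K : ℕ) : ℝ := qq K * (1 + -1 / K)

theorem EE_eq {K : ℕ} (hK : 2 ≤ K) : EE K = K * (1 - qq K) * (K / (K - 1)) ^ 2 * rr K *
    (K * (1 - rr K) - (1 + rr K) + rr K ^ K * (K * (1 - rr K) + (1 + rr K))) /
      (K * (1 - rr K)) ^ 3 := by
  have hKr : (2 : ℝ) ≤ K := by exact_mod_cast hK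
  have hK1 : (0 : ℝ) < (K : ℝ) - 1 := by linarith
  have hK0 : (0 : ℝ) < (K : ℝ) := by linarith
  have h1 : ∑ i ∈ range K,
      qq K ^ i * ((i : ℝ) * ((K : ℝ) - i) * (((K : ℝ) - 1) / K) ^ i / (K - 1) ^ 2) =
      (∑ i ∈ range K, (i : ℝ) * ((K : ℝ) - i) * rr K ^ i) / (K - 1) ^ 2 := by
    rw [sum_div]
    refine sum_congr rfl fun i _ => ?_
    have h2 : rr K ^ i = qq K ^ i * (((K : ℝ) - 1) / K) ^ i := by
      rw [← mul_pow, rr]
      congr 2
      field_simp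
      ring
    rw [h2]
    ring
  have h2 : 0 < 1 - rr K := by
    have h3 := qq_lt_one (show 0 < K by omega)
    have h4 := qq_pos K
    have h5 : 1 + -1 / (K : ℝ) < 1 := by
      have : (0 : ℝ) < 1 / K := by positivity
      have e : -1 / (K : ℝ) = -(1 / K) := by ring
      rw [e]
      linarith
    have h6 : 0 < 1 + -1 / (K : ℝ) := by
      have e : 1 + -1 / (K : ℝ) = (K - 1) / K := by field_simp; ring
      rw [e]
      positivity
    unfold rr
    nlinarith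
  have h3 := sum_mix (rr K) K
  unfold EE
  rw [h1]
  obtain ⟨S, hS⟩ : ∃ S, S = ∑ i ∈ range K, (i : ℝ) * ((K : ℝ) - i) * rr K ^ i := ⟨_, rfl⟩
  rw [← hS] at h3 ⊢
  obtain ⟨r, hr⟩ : ∃ r, r = rr K := ⟨_, rfl⟩
  rw [← hr] at h2 h3 ⊢
  have h4 : S = r * ((K - 1) - (K + 1) * r + (K + 1) * r ^ K - (K - 1) * r ^ (K + 1)) /
      (1 - r) ^ 3 := by
    rw [← h3]
    field_simp
  rw [h4]
  have h5 : r * ((K - 1) - (K + 1) * r + (K + 1) * r ^ K - (K - 1) * r ^ (K + 1)) =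
      r * (K * (1 - r) - (1 + r) + r ^ K * (K * (1 - r) + (1 + r))) := by
    rw [pow_succ]
    ring
  rw [h5]
  have hne : (K : ℝ) - 1 ≠ 0 := hK1.ne'
  field_simp

theorem tendsto_inv_nat (c : ℝ) : Tendsto (fun K : ℕ => c / (K : ℝ)) atTop (𝓝 0) :=
  tendsto_const_nhds.div_atTop tendsto_natCast_atTop_atTop

theorem tendsto_qq : Tendsto qq atTop (𝓝 1) := by
  have h1 := (Real.continuous_exp.tendsto 0).comp (tendsto_inv_nat (-(27 / 20)))
  rw [Real.exp_zero] at h1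
  exact h1

theorem tendsto_u : Tendsto (fun K : ℕ => (K : ℝ) * (1 - qq K)) atTop (𝓝 (27 / 20)) := by
  have h1 : Tendsto (fun K : ℕ => 27 / 20 * qq K) atTop (𝓝 (27 / 20)) := by
    have := tendsto_qq.const_mul (27 / 20)
    rw [mul_one] at this
    exact this
  refine tendsto_of_tendsto_of_tendsto_of_le_of_le' h1 tendsto_const_nhds ?_ ?_
  · filter_upwards [eventually_gt_atTop 0] with K hK using qq_lo hK
  · filter_upwards [eventually_gt_atTop 0] with K hK using qq_hi hK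

theorem tendsto_rr : Tendsto rr atTop (𝓝 1) := by
  have h1 := tendsto_qq.mul ((tendsto_inv_nat (-1)).const_add 1)
  rw [add_zero, mul_one] at h1
  exact h1

theorem tendsto_v : Tendsto (fun K : ℕ => (K : ℝ) * (1 - rr K)) atTop (𝓝 (47 / 20)) := by
  have h1 := tendsto_u.add tendsto_qq
  have e : (27 / 20 : ℝ) + 1 = 47 / 20 := by norm_num
  rw [e] at h1
  refine h1.congr' ?_
  filter_upwards [eventually_gt_atTop 0] with K hK
  have hKr : (K : ℝ) ≠ 0 := by positivity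
  unfold rr
  field_simp
  ring

theorem tendsto_rpow : Tendsto (fun K : ℕ => rr K ^ K) atTop (𝓝 (Real.exp (-(47 / 20)))) := by
  have h1 := (Real.tendsto_one_add_div_pow_exp (-1)).const_mul (Real.exp (-(27 / 20)))
  have e : Real.exp (-(27 / 20)) * Real.exp (-1) = Real.exp (-(47 / 20)) := by
    rw [← Real.exp_add]
    norm_num
  rw [e] at h1
  refine h1.congr' ?_
  filter_upwards [eventually_gt_atTop 0] with K hK
  unfold rr
  rw [mul_pow, qq_pow hK]

theorem tendsto_ratio : Tendsto (fun K : ℕ => (K : ℝ) / (K - 1)) atTop (𝓝 1) := by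
  have h1 : Tendsto (fun K : ℕ => (1 : ℝ) - 1 / (K : ℝ)) atTop (𝓝 1) := by
    have := (tendsto_inv_nat 1).const_sub 1
    rw [sub_zero] at this
    exact this
  have h2 := h1.inv₀ one_ne_zero
  rw [inv_one] at h2
  refine h2.congr' ?_
  filter_upwards [eventually_gt_atTop 1] with K hK
  have hKr : (1 : ℝ) < K := by exact_mod_cast hK
  have h3 : (K : ℝ) ≠ 0 := by linarith
  have h4 : (K : ℝ) - 1 ≠ 0 := by linarith
  field_simp

theorem tendsto_EE : Tendsto EE atTop (𝓝 (27 / 20 * 1 ^ 2 * 1 *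
    (47 / 20 - (1 + 1) + Real.exp (-(47 / 20)) * (47 / 20 + (1 + 1))) / (47 / 20) ^ 3)) := by
  have h1 := (((tendsto_u.mul (tendsto_ratio.pow 2)).mul tendsto_rr).mul
    ((tendsto_v.sub (tendsto_rr.const_add 1)).add (tendsto_rpow.mul
      (tendsto_v.add (tendsto_rr.const_add 1))))).div (tendsto_v.pow 3) (by norm_num)
  refine h1.congr' ?_
  filter_upwards [eventually_ge_atTop 2] with K hK
  exact (EE_eq hK).symm

theorem exp_bounds : (0.259 : ℝ) < Real.exp (-(27 / 20)) ∧ (0.095 : ℝ) < Real.exp (-(47 / 20)) := by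
  have h1 := Real.exp_one_lt_d9
  have h5 : Real.exp (7 / 20) < (1.41907 : ℝ) := by
    have h2 := Real.exp_bound' (x := (7 / 20 : ℝ)) (by norm_num) (by norm_num)
      (n := 6) (by norm_num)
    simp only [sum_range_succ, sum_range_zero, Nat.factorial] at h2
    norm_num at h2 ⊢
    linarith
  have h0 := Real.exp_pos (7 / 20)
  have h0' := Real.exp_pos 1
  constructor
  · rw [Real.exp_neg, lt_inv_comm₀ (by norm_num) (Real.exp_pos _)]
    have e : (27 / 20 : ℝ) = 1 + 7 / 20 := by norm_num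
    rw [e, Real.exp_add]
    nlinarith
  · rw [Real.exp_neg, lt_inv_comm₀ (by norm_num) (Real.exp_pos _)]
    have e : (47 / 20 : ℝ) = 1 + 1 + 7 / 20 := by norm_num
    rw [e, Real.exp_add, Real.exp_add]
    have h6 : Real.exp 1 * Real.exp 1 < (7.38906 : ℝ) := by nlinarith
    nlinarith

/-- the final value -/
theorem eventually_lt : ∀ᶠ K : ℕ in atTop, 2 * (Real.exp (27 / 10 / (K : ℝ)) *
    ((1 - Real.exp (-(27 / 20))) / (27 / 20) - 17 / 27 * EE K)) < 1 := by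
  have h1 : Tendsto (fun K : ℕ => Real.exp (27 / 10 / (K : ℝ))) atTop (𝓝 1) := by
    have := (Real.continuous_exp.tendsto 0).comp (tendsto_inv_nat (27 / 10))
    rw [Real.exp_zero] at this
    exact this
  have h2 := (h1.mul ((tendsto_EE.const_mul (17 / 27)).const_sub
    ((1 - Real.exp (-(27 / 20))) / (27 / 20)))).const_mul 2
  refine h2.eventually (gt_mem_nhds ?_)
  obtain ⟨h3, h4⟩ := exp_bounds
  obtain ⟨z, hz⟩ : ∃ z, z = Real.exp (-(27 / 20)) := ⟨_, rfl⟩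
  obtain ⟨w, hw⟩ : ∃ w, w = Real.exp (-(47 / 20)) := ⟨_, rfl⟩
  rw [← hz, ← hw]
  rw [← hz] at h3
  rw [← hw] at h4
  norm_num
  linarith

end Pool.Agent.H70.CP
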