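import Pool.Agent.H70.CP.AmGm
import Pool.Agent.H70.CP.Count
import Pool.Agent.H70.CP.Num

/-!
# The potential is less than `1 / 2`
-/

set_option autoImplicit false

namespace Pool.Agent.H70.CP

open Finset Filter Topology

theorem VV_small : ∀ᶠ K : ℕ in atTop, 2 * VV (27 / 10) K K (fun _ => 0) < 1 := by
  filter_upwards [eventually_lt, eventually_ge_atTop 3] with K h hK
  have hKr : (3 : ℝ) ≤ K := by exact_mod_cast hK
  have hK0 : 0 < K := by omega
  have h1 := VV_zero_le (c := 27 / 10) (q := qq K) (K := K) (by norm_num) (by omega)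
    (by linarith) (by
      unfold qq
      congr 1
      field_simp
      norm_num) K
  rw [ZZ_eq hK0, ZZ_eq hK0] at h1
  have hq1 := qq_lt_one hK0
  have hq0 := qq_pos K
  obtain ⟨k, hk⟩ : ∃ k, K = k + 2 := ⟨K - 2, by omega⟩
  have hkr : (K : ℝ) = k + 2 := by rw [hk]; push_cast; ring
  have hP0 : ∀ i ∈ range K, qq K ^ i * (((K : ℝ) - i) / K) ≤
      qq K ^ i * PP K 0 i (fun _ => 0) := by
    intro i hi
    rw [mem_range] at hi
    refine mul_le_mul_of_nonneg_left ?_ (by positivity)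
    have := PP_zero_ge k i (by omega)
    rw [hkr, hk]
    exact this
  have hP1 : ∀ i ∈ range K, qq K ^ i * (((K : ℝ) - i) / K) +
      qq K ^ i * ((i : ℝ) * ((K : ℝ) - i) * (((K : ℝ) - 1) / K) ^ i / (K - 1) ^ 2) ≤
      qq K ^ i * PP K 1 i (fun _ => 0) := by
    intro i hi
    rw [mem_range] at hi
    rw [← mul_add]
    refine mul_le_mul_of_nonneg_left ?_ (by positivity)
    have := PP_one_ge k i (by omega)
    have e : (K : ℝ) - 1 = k + 1 := by rw [hkr]; ring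
    rw [e, hkr, hk]
    exact this
  have hs0 := sum_le_sum hP0
  have hs1 := sum_le_sum hP1
  rw [sum_add_distrib] at hs1
  have hf := first_sum hK0
  obtain ⟨S, hS⟩ : ∃ S, S = ∑ i ∈ range K, qq K ^ i * (((K : ℝ) - i) / K) := ⟨_, rfl⟩
  rw [← hS] at hs0 hs1 hf
  have hE : EE K = (1 - qq K) * ∑ i ∈ range K,
    qq K ^ i * ((i : ℝ) * ((K : ℝ) - i) * (((K : ℝ) - 1) / K) ^ i / (K - 1) ^ 2) := rfl
  obtain ⟨E, hE'⟩ : ∃ E, E = ∑ i ∈ range K,
    qq K ^ i * ((i : ℝ) * ((K : ℝ) - i) * (((K : ℝ) - 1) / K) ^ i / (K - 1) ^ 2) := ⟨_, rfl⟩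
  rw [← hE'] at hs1 hE
  obtain ⟨P0, hP0'⟩ : ∃ P0, P0 = ∑ i ∈ range K, qq K ^ i * PP K 0 i (fun _ => 0) := ⟨_, rfl⟩
  obtain ⟨P1, hP1'⟩ : ∃ P1, P1 = ∑ i ∈ range K, qq K ^ i * PP K 1 i (fun _ => 0) := ⟨_, rfl⟩
  rw [← hP0', ← hP1'] at h1
  rw [← hP0'] at hs0
  rw [← hP1'] at hs1
  have hd : 0 ≤ 1 - qq K := by linarith
  have a0 := mul_le_mul_of_nonneg_left hs0 hd
  have a1 := mul_le_mul_of_nonneg_left hs1 hd
  have h2 : 1 / (27 / 10 : ℝ) * (1 - (1 - qq K) * P0) +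
      ((27 / 10 : ℝ) - 1) / (27 / 10) * (1 - (1 - qq K) * P1) ≤
      (1 - Real.exp (-(27 / 20))) / (27 / 20) - 17 / 27 * EE K := by
    rw [hE]
    have e1 : (1 - qq K) * (S + E) = (1 - qq K) * S + (1 - qq K) * E := by ring
    rw [e1] at a1
    linarith
  have h3 := mul_le_mul_of_nonneg_left h2 (Real.exp_pos (27 / 10 / (K : ℝ))).le
  linarith

end Pool.Agent.H70.CP
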