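import Pool.Agent.H70.CP.Mono

/-!
# `ZZ` in terms of `PP`
-/

set_option autoImplicit false

namespace Pool.Agent.H70.CP

open Finset

theorem ok_upd {K : ℕ} {a : ℕ → ℕ} {τ b : ℕ} (h : ok K (upd a τ) b) : ok K a b :=
  ok_anti (fun T => by unfold upd; exact Nat.le_add_right _ _) h

theorem PP_of_not_ok {K b : ℕ} (n : ℕ) : ∀ a : ℕ → ℕ, ¬ ok K a b → PP K b n a = 0 := by
  classical
  induction n with
  | zero => intro a h; unfold PP; rw [if_neg h]
  | succ n ih =>
    intro a h
    unfold PP
    rw [sum_eq_zero fun τ _ => ih _ fun h' => h (ok_upd h'), zero_div]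

theorem ZZ_eq {q : ℝ} {K b : ℕ} (hK : 0 < K) (n : ℕ) : ∀ a : ℕ → ℕ,
    ZZ q K b n a = 1 - (1 - q) * ∑ i ∈ range n, q ^ i * PP K b i a := by
  classical
  have hKr : (K : ℝ) ≠ 0 := by positivity
  induction n with
  | zero => intro a; simp [ZZ]
  | succ n ih =>
    intro a
    by_cases h : ok K a b
    · rw [ZZ, if_pos h, sum_congr rfl fun τ _ => ih _, sum_sub_distrib, ← mul_sum, sum_comm,
        sum_range_succ', sum_const, card_univ, Fintype.card_fin, nsmul_eq_mul, mul_one]
      have h1 : ∀ i ∈ range n, ∑ τ : Fin K, q ^ i * PP K b i (upd a τ) =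
          q ^ i * (K * PP K b (i + 1) a) := by
        intro i _
        rw [← mul_sum, PP]
        congr 1
        field_simp
      rw [sum_congr rfl h1]
      have h2 : PP K b 0 a = 1 := by
        unfold PP
        rw [if_pos h]
      have h3 : ∑ i ∈ range n, q ^ (i + 1) * PP K b (i + 1) a =
          q * ∑ i ∈ range n, q ^ i * PP K b (i + 1) a := by
        rw [mul_sum]
        exact sum_congr rfl fun i _ => by ring
      have h4 : ∑ i ∈ range n, q ^ i * (K * PP K b (i + 1) a) =
          K * ∑ i ∈ range n, q ^ i * PP K b (i + 1) a := by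
        rw [mul_sum]
        exact sum_congr rfl fun i _ => by ring
      rw [h2, h3, h4, pow_zero]
      field_simp
      ring
    · have h0 : ∑ i ∈ range (n + 1), q ^ i * PP K b i a = 0 :=
        sum_eq_zero fun i _ => by rw [PP_of_not_ok i a h, mul_zero]
      have h1 : ∀ τ : Fin K, ZZ q K b n (upd a τ) = 1 := by
        intro τ
        have h2 : ∑ i ∈ range n, q ^ i * PP K b i (upd a τ) = 0 :=
          sum_eq_zero fun i _ => by rw [PP_of_not_ok i _ fun h' => h (ok_upd h'), mul_zero]
        rw [ih, h2, mul_zero, sub_zero]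
      rw [ZZ, if_neg h, h0, sum_congr rfl fun τ _ => h1 τ, sum_const, card_univ,
        Fintype.card_fin, nsmul_eq_mul, mul_one, div_self hKr, mul_zero, sub_zero, one_mul]

end Pool.Agent.H70.CP
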